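import Pool.Agent.Helper66.CW.Defs

/-!
# Efron-Stein inequality on the cube and Chebyshev (block B2 of project CW, MP_a499ba_nt)
-/

set_option autoImplicit false

namespace Pool.Agent.Helper12.CW

open Finset Filter Pool.Agent.Helper66.MB

/-- `exd` of a vector with one more entry. -/
private lemma exd_snoc_12 (J : ℕ) (w : Fin J → ℤˣ) (u : ℤˣ) :
    exd (Fin.snoc (α := fun _ => ℤˣ) w u : Fin (J + 1) → ℤˣ) = Function.update (exd w) J u := by
  funext i
  by_cases hi : i = J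
  · subst hi
    simp [exd, Fin.snoc]
  · rw [Function.update_of_ne hi]
    by_cases h : i < J
    · have h' : i < J + 1 := by omega
      simp [exd, Fin.snoc, h, h']
    · have h' : ¬ i < J + 1 := by omega
      simp [exd, h, h']

private lemma sum_units_12 (f : ℤˣ → ℝ) : ∑ u : ℤˣ, f u = f 1 + f (-1) := by
  rw [show (univ : Finset ℤˣ) = {1, -1} from by decide]
  rw [sum_pair (by decide)]

/-- Sums over sign vectors of length `J + 1`. -/
private lemma sum_succ_12 (J : ℕ) (G : (ℕ → ℤˣ) → ℝ) :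
    ∑ w : Fin (J + 1) → ℤˣ, G (exd w) =
      ∑ w : Fin J → ℤˣ, (G (Function.update (exd w) J 1) + G (Function.update (exd w) J (-1))) := by
  rw [← (Fin.snocEquiv (fun _ : Fin (J + 1) => ℤˣ)).sum_comp (fun w => G (exd w))]
  rw [Fintype.sum_prod_type_right]
  refine sum_congr rfl fun w _ => ?_
  have h : ∀ u : ℤˣ, G (exd ((Fin.snocEquiv (fun _ : Fin (J + 1) => ℤˣ)) (u, w))) =
      G (Function.update (exd w) J u) := by
    intro u
    have e : (Fin.snocEquiv (fun _ : Fin (J + 1) => ℤˣ)) (u, w) =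
        (Fin.snoc (α := fun _ => ℤˣ) w u : Fin (J + 1) → ℤˣ) := rfl
    rw [e, exd_snoc_12]
  simp only [h]
  exact sum_units_12 _

/-- The mixed vector. -/
private def mix_12 (I : ℕ) (ω η : ℕ → ℤˣ) : ℕ → ℤˣ := fun i => if i < I then ω i else η i

private lemma mix_update_12 (I J : ℕ) (hIJ : I ≤ J) (ω η : ℕ → ℤˣ) (u : ℤˣ) :
    mix_12 I ω (Function.update η J u) = Function.update (mix_12 I ω η) J u := by
  funext i
  by_cases hi : i = J
  · subst hi
    simp [mix_12, Nat.not_lt.mpr hIJ]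
  · simp [mix_12, Function.update_of_ne hi]

private lemma mix_update_left_12 (I J : ℕ) (hIJ : I ≤ J) (ω η : ℕ → ℤˣ) (u : ℤˣ) :
    mix_12 I (Function.update ω J u) η = mix_12 I ω η := by
  funext i
  by_cases hi : i < I
  · have : i ≠ J := by omega
    simp [mix_12, hi, Function.update_of_ne this]
  · simp [mix_12, hi]

/-- The variance bound, without the denominators. -/
private lemma var_12 (I : ℕ) (c : ℕ → ℝ) : ∀ J : ℕ, I ≤ J → ∀ F : (ℕ → ℤˣ) → ℝ,
    (∀ ω ω' : ℕ → ℤˣ, (∀ i, i < J → ω i = ω' i) → F ω = F ω') →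
    (∀ i, I ≤ i → i < J → ∀ ω : ℕ → ℤˣ, |F (Function.update ω i (-ω i)) - F ω| ≤ c i) →
    ∑ w : Fin J → ℤˣ, (F (exd w) - (∑ η : Fin J → ℤˣ, F (mix_12 I (exd w) (exd η))) / 2 ^ J) ^ 2 ≤
      2 ^ J * ((1 / 4) * ∑ i ∈ Ico I J, c i ^ 2) := by
  intro J hJ
  induction J, hJ using Nat.le_induction with
  | base =>
    intro F hloc hD
    have h0 : ∀ w : Fin I → ℤˣ,
        F (exd w) - (∑ η : Fin I → ℤˣ, F (mix_12 I (exd w) (exd η))) / 2 ^ I = 0 := by
      intro w
      have h1 : ∀ η : Fin I → ℤˣ, F (mix_12 I (exd w) (exd η)) = F (exd w) := by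
        intro η
        refine hloc _ _ fun i hi => ?_
        simp [mix_12, hi]
      rw [sum_congr rfl fun η _ => h1 η]
      rw [sum_const, card_univ, Fintype.card_pi]
      simp
    simp [h0]
  | succ J hJ ih =>
    intro F hloc hD
    set F' : (ℕ → ℤˣ) → ℝ := fun ω => (F (Function.update ω J 1) + F (Function.update ω J (-1))) / 2
      with hF'
    have hloc' : ∀ ω ω' : ℕ → ℤˣ, (∀ i, i < J → ω i = ω' i) → F' ω = F' ω' := by
      intro ω ω' h
      have h2 : ∀ u : ℤˣ, F (Function.update ω J u) = F (Function.update ω' J u) := by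
        intro u
        refine hloc _ _ fun i hi => ?_
        by_cases hiJ : i = J
        · subst hiJ; simp
        · rw [Function.update_of_ne hiJ, Function.update_of_ne hiJ]
          exact h i (by omega)
      simp only [hF', h2]
    have hD' : ∀ i, I ≤ i → i < J → ∀ ω : ℕ → ℤˣ, |F' (Function.update ω i (-ω i)) - F' ω| ≤ c i := by
      intro i hi hiJ ω
      have hne : i ≠ J := by omega
      have h2 : ∀ u : ℤˣ, |F (Function.update (Function.update ω i (-ω i)) J u) -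
          F (Function.update ω J u)| ≤ c i := by
        intro u
        have h3 := hD i hi (by omega) (Function.update ω J u)
        rw [Function.update_of_ne hne] at h3
        rwa [Function.update_comm hne]
      have h4 := abs_le.mp (h2 1)
      have h5 := abs_le.mp (h2 (-1))
      simp only [hF']
      rw [abs_le]
      constructor <;> linarith [h4.1, h4.2, h5.1, h5.2]
    have hA : ∀ ω : ℕ → ℤˣ, (∑ η : Fin (J + 1) → ℤˣ, F (mix_12 I ω (exd η))) / 2 ^ (J + 1) =
        (∑ η : Fin J → ℤˣ, F' (mix_12 I ω (exd η))) / 2 ^ J := by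
      intro ω
      rw [sum_succ_12 J (fun η => F (mix_12 I ω η))]
      simp only [mix_update_12 I J hJ, hF']
      rw [← sum_div, pow_succ, mul_comm ((2 : ℝ) ^ J) 2, div_div]
    have hstep : ∀ ω : ℕ → ℤˣ, ∀ a : ℝ,
        (F (Function.update ω J 1) - a) ^ 2 + (F (Function.update ω J (-1)) - a) ^ 2 ≤
          2 * (F' ω - a) ^ 2 + c J ^ 2 / 2 := by
      intro ω a
      have h3 := hD J hJ (by omega) (Function.update ω J 1)
      rw [Function.update_self, Function.update_idem] at h3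
      have h4 : (F (Function.update ω J (-1)) - F (Function.update ω J 1)) ^ 2 ≤ c J ^ 2 := by
        rw [← sq_abs]
        exact pow_le_pow_left₀ (abs_nonneg _) h3 2
      simp only [hF']
      nlinarith [h4]
    rw [sum_succ_12 J (fun w => (F w - (∑ η : Fin (J + 1) → ℤˣ, F (mix_12 I w (exd η))) / 2 ^ (J + 1)) ^ 2)]
    simp only [hA, mix_update_left_12 I J hJ]
    calc ∑ w : Fin J → ℤˣ, ((F (Function.update (exd w) J 1) -
            (∑ η : Fin J → ℤˣ, F' (mix_12 I (exd w) (exd η))) / 2 ^ J) ^ 2 +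
          (F (Function.update (exd w) J (-1)) -
            (∑ η : Fin J → ℤˣ, F' (mix_12 I (exd w) (exd η))) / 2 ^ J) ^ 2)
        ≤ ∑ w : Fin J → ℤˣ, (2 * (F' (exd w) -
            (∑ η : Fin J → ℤˣ, F' (mix_12 I (exd w) (exd η))) / 2 ^ J) ^ 2 + c J ^ 2 / 2) :=
          sum_le_sum fun w _ => hstep _ _
      _ = 2 * ∑ w : Fin J → ℤˣ, (F' (exd w) -
            (∑ η : Fin J → ℤˣ, F' (mix_12 I (exd w) (exd η))) / 2 ^ J) ^ 2 +
            2 ^ J * (c J ^ 2 / 2) := by
          rw [sum_add_distrib, ← mul_sum, sum_const, card_univ, Fintype.card_pi]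
          simp
      _ ≤ 2 * (2 ^ J * ((1 / 4) * ∑ i ∈ Ico I J, c i ^ 2)) + 2 ^ J * (c J ^ 2 / 2) := by
          have := ih F' hloc' hD'
          linarith
      _ = 2 ^ (J + 1) * ((1 / 4) * ∑ i ∈ Ico I (J + 1), c i ^ 2) := by
          rw [sum_Ico_succ_top hJ]
          ring

/-- B2: Efron-Stein and Chebyshev on the cube, the coordinates below `I` being fixed. -/
theorem poincare (J I : ℕ) (F : (ℕ → ℤˣ) → ℝ)
    (hloc : ∀ ω ω' : ℕ → ℤˣ, (∀ i, i < J → ω i = ω' i) → F ω = F ω')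
    (c : ℕ → ℝ) (hc : ∀ i, 0 ≤ c i)
    (hD : ∀ i, I ≤ i → i < J → ∀ ω : ℕ → ℤˣ, |F (Function.update ω i (-ω i)) - F ω| ≤ c i)
    (m : ℝ) (hm : ∀ ω : ℕ → ℤˣ, |(∑ η : Fin J → ℤˣ, F (fun i => if i < I then ω i else exd η i)) / 2 ^ J| ≤ m)
    (t : ℝ) (ht : 0 < t) :
    fr J (fun ω => ¬ |F ω| ≤ m + t) ≤ (∑ i ∈ Ico I J, c i ^ 2) / (4 * t ^ 2) := by
  classical
  have hm' : ∀ w : Fin J → ℤˣ,
      |(∑ η : Fin J → ℤˣ, F (mix_12 I (exd w) (exd η))) / 2 ^ J| ≤ m := fun w => hm (exd w)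
  have hvar : ∑ w : Fin J → ℤˣ,
      (F (exd w) - (∑ η : Fin J → ℤˣ, F (mix_12 I (exd w) (exd η))) / 2 ^ J) ^ 2 ≤
      2 ^ J * ((1 / 4) * ∑ i ∈ Ico I J, c i ^ 2) := by
    by_cases hIJ : I ≤ J
    · exact var_12 I c J hIJ F hloc hD
    · have hJI : J ≤ I := by omega
      have h0 : ∀ w : Fin J → ℤˣ,
          F (exd w) - (∑ η : Fin J → ℤˣ, F (mix_12 I (exd w) (exd η))) / 2 ^ J = 0 := by
        intro w
        have h1 : ∀ η : Fin J → ℤˣ, F (mix_12 I (exd w) (exd η)) = F (exd w) := by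
          intro η
          refine hloc _ _ fun i hi => ?_
          have : i < I := by omega
          simp [mix_12, this]
        rw [sum_congr rfl fun η _ => h1 η]
        rw [sum_const, card_univ, Fintype.card_pi]
        simp
      simp [h0, Ico_eq_empty_of_le hJI]
  have hcard : (((univ.filter (fun w : Fin J → ℤˣ => ¬ |F (exd w)| ≤ m + t)).card : ℝ)) * t ^ 2 ≤
      2 ^ J * ((1 / 4) * ∑ i ∈ Ico I J, c i ^ 2) := by
    refine le_trans ?_ hvar
    calc (((univ.filter (fun w : Fin J → ℤˣ => ¬ |F (exd w)| ≤ m + t)).card : ℝ)) * t ^ 2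
        = ∑ w ∈ univ.filter (fun w : Fin J → ℤˣ => ¬ |F (exd w)| ≤ m + t), t ^ 2 := by
          rw [sum_const, nsmul_eq_mul]
      _ ≤ ∑ w ∈ univ.filter (fun w : Fin J → ℤˣ => ¬ |F (exd w)| ≤ m + t),
          (F (exd w) - (∑ η : Fin J → ℤˣ, F (mix_12 I (exd w) (exd η))) / 2 ^ J) ^ 2 := by
          refine sum_le_sum fun w hw => ?_
          have h1 := (mem_filter.mp hw).2
          push Not at h1
          have h2 := hm' w
          have h3 : t ≤ |F (exd w) - (∑ η : Fin J → ℤˣ, F (mix_12 I (exd w) (exd η))) / 2 ^ J| := by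
            have h4 := abs_sub_abs_le_abs_sub (F (exd w))
              ((∑ η : Fin J → ℤˣ, F (mix_12 I (exd w) (exd η))) / 2 ^ J)
            linarith
          rw [← sq_abs (F (exd w) - (∑ η : Fin J → ℤˣ, F (mix_12 I (exd w) (exd η))) / 2 ^ J)]
          exact pow_le_pow_left₀ ht.le h3 2
      _ ≤ _ := sum_le_sum_of_subset_of_nonneg (filter_subset _ _) fun _ _ _ => sq_nonneg _
  unfold fr
  rw [div_le_div_iff₀ (by positivity) (by positivity)]
  have e : (∑ i ∈ Ico I J, c i ^ 2) * 2 ^ J = 4 * (2 ^ J * ((1 / 4) * ∑ i ∈ Ico I J, c i ^ 2)) := by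
    ring
  rw [e]
  have h5 := hcard
  have h6 : (((univ.filter (fun w : Fin J → ℤˣ => ¬ |F (exd w)| ≤ m + t)).card : ℝ)) * (4 * t ^ 2) =
      4 * ((((univ.filter (fun w : Fin J → ℤˣ => ¬ |F (exd w)| ≤ m + t)).card : ℝ)) * t ^ 2) := by
    ring
  calc _ = (((univ.filter (fun w : Fin J → ℤˣ => ¬ |F (exd w)| ≤ m + t)).card : ℝ)) * (4 * t ^ 2) := by
        congr!
    _ ≤ _ := by rw [h6]; linarith

end Pool.Agent.Helper12.CW
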